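import Pool.Agent.H81.MN.NefModel

/-!
# MP_5ee2d0_ag, boundary divisors of type III: a nef extension which is not trivial on all double
surfaces

`b` is a prime divisor of the base over which the models `YY → Δ` (as in `Termination`) have special
fibres `F = Σ V_i` of type III: the dual complex of a dlt modification is a disc. `L` is a nef class
of the generic fibre, not numerically trivial. We show that there are a model `YY` and a nef
extension `N` of a multiple of `L` such that `N` is not numerically trivial on all double surfaces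
of a dlt modification of `YY` (base change, then crepant modification, reduced special fibre).

The new argument. The set `K` of the vertical coefficients `s` for which `N_s = L - Σ s_i V_i` is
movable is compact and convex, and closed under the minimum of functions. So it has least elements
`c(k)` with `k`-th coefficient zero. Suppose all nef extensions are trivial on all double surfaces.
For `N_c(k)` all components `V_i`, `i ≠ k`, are covered by curves of degree zero, so the class is zero
there; so it is not zero on `V_k`, which is not covered: the `k`-th coefficient can be lowered. This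
holds for all `k`, so `K` has interior points. By Baire's theorem one model is good for an open set of
`s`, hence all components `V_i` are numerically trivial on all double surfaces of its dlt
modification. This contradicts the connectedness of the boundary of a component which meets two other
ones.
-/

namespace Pool.Agent.H31.MN

open Pool.Agent.H33.MN Pool.Agent.H81.MN Filter Topology

/-- The class of a component of the special fibre; the sum of all components is zero. -/
def VV {P : Type} [AddCommGroup P] {g : Germ P} (D : DivSpace g) : Option D.I → g.Lam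
  | some i => D.V i
  | none => -∑ i, D.V i

/-- the real class `x - Σ t_i V_i`, the sum over all components -/
noncomputable def tf {P : Type} [AddCommGroup P] {g : Germ P} (D : DivSpace g) (x : g.Lam)
    (t : Option D.I → ℝ) : D.N := D.tw x (fun i => t (some i) - t none) 0

/-- Double surfaces and covering families. `J` is the set of the components of the special fibres of
the models, `XX → YY_mu` a dlt modification of (a base change of) the model `mu`. -/
structure VertGerm {P : Type} [AddCommGroup P] (g : Germ P) (NefG : P → Prop) (Big : P → Prop)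
    extends NefGerm g NefG where
  /-- a model is determined by an integral class which is ample on it -/
  cnt : Countable g.Mo
  /-- the nef cone is closed -/
  nef_closed : ∀ mu, IsClosed {y | NefR mu y}
  /-- nonzero sections of the classes for `t` and `t'` give sections of the class for the minimum
  without a common vertical component -/
  inf_mem : ∀ x t t', tf toDivSpace x t ∈ Mov → tf toDivSpace x t' ∈ Mov →
    tf toDivSpace x (fun i => min (t i) (t' i)) ∈ Mov
  /-- `y` is numerically trivial on the component `V_k` of the model `mu` -/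
  Null : g.Mo → Option I → N → Prop
  /-- the degree of a class which is not numerically trivial is constant in the family; `Big L` says
  that `L` is not numerically trivial on the generic fibre -/
  not_null : ∀ mu x t, Big (g.rho x) → NefR mu (tf toDivSpace x t) →
    ∃ k, ¬ Null mu k (tf toDivSpace x t)
  /-- the curves in the double surfaces of the dlt modification of `mu` -/
  CurD : g.Mo → Type
  degD : ∀ mu, CurD mu → N → ℝ
  degD_add : ∀ mu C x y, degD mu C (x + y) = degD mu C x + degD mu C y
  degD_smul : ∀ mu C (r : ℝ) x, degD mu C (r • x) = r * degD mu C x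
  degD_nef : ∀ mu C x, NefR mu x → 0 ≤ degD mu C x
  /-- the model is `Q`-factorial -/
  intD : ∀ mu C x, ∃ z : ℤ, ind mu * degD mu C (cl x) = z
  /-- Let `y = x - Σ t_i V_i` be nef on `mu`, and `y + ε V_k` not movable for all `ε > 0`. Then (cone
  theorem, Birkar, Cascini, Hacon, McKernan) after steps of degree zero for `y` the component `V_k` is
  contracted along curves of degree zero; the sum of the other components is ample on the fibres
  of this contraction `V_k → T`, and `y` is on `V_k` the pull back of a class of `T` (a real nef class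
  is here a positive combination of rational ones which are nef on `mu` and zero on the same extremal
  rays, see `exists_rational`). If `y` is not numerically trivial on `V_k` then it is not on
  the intersection of `V_k` with another component, a log canonical centre. So it is not on a
  stratum of the dlt modification, hence not on a double surface of it. -/
  cover : ∀ mu x t k, NefR mu (tf toDivSpace x t) →
    (∀ t', t' k < t k → (∀ i, i ≠ k → t' i = t i) → tf toDivSpace x t' ∉ Mov) →
    (∀ C, degD mu C (tf toDivSpace x t) = 0) → Null mu k (tf toDivSpace x t)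
  /-- the double surfaces of the dlt modification of `mu` on the strict transform of `V_j` -/
  E : g.Mo → Option I → Type
  /-- the coefficient of the double surface `e` in the restriction to the strict transform of `V_j` of
  the pull back of the component `V_l`, `l ≠ j` -/
  a : ∀ mu j, Option I → E mu j → ℝ
  a_nonneg : ∀ mu j l e, l ≠ j → 0 ≤ a mu j l e
  /-- two double surfaces on `V_j` meet in a triple curve -/
  Adj : ∀ mu j, E mu j → E mu j → Prop
  /-- the boundary of `V_j` is connected, since the dual complex is a disc -/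
  conn : ∀ mu j e e', Relation.ReflTransGen (Adj mu j) e e'
  /-- the restriction of the pull back of `V_l` to the double surface `e` is the sum of the other
  double surfaces on `V_j`, with their coefficients, if the coefficient of `e` is zero: it has positive
  degree on an ample curve of `e` if one of them meets `e` in a triple curve and has positive
  coefficient -/
  pos : ∀ mu j l e e', l ≠ j → Adj mu j e e' ∨ Adj mu j e' e → a mu j l e = 0 → 0 < a mu j l e' →
    ∃ C : CurD mu, degD mu C (cl (VV toDivSpace l)) ≠ 0
  /-- A dlt modification of one model has three components through a triple curve, so there are at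
  least three components, and the special fibre is connected. So some `V_j` meets two others `V_i` and
  `V_l`. A surface in `V_j ∩ V_i` is not contained in `V_l`, since at most two components contain
  a surface of a log canonical model, and `V_j` meets `V_l`. -/
  link : ∀ mu, ∃ j l, l ≠ j ∧ (∃ e, a mu j l e = 0) ∧ ∃ e, 0 < a mu j l e

namespace VertGerm

variable {P : Type} [AddCommGroup P] {g : Germ P} {NefG Big : P → Prop}
  (S : VertGerm g NefG Big)

/-- the intersection number with a curve in a double surface as a linear form -/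
noncomputable def lin (mu : g.Mo) (C : S.CurD mu) : S.N →ₗ[ℝ] ℝ where
  toFun := S.degD mu C
  map_add' := S.degD_add mu C
  map_smul' := S.degD_smul mu C

theorem deg_tf (mu : g.Mo) (C : S.CurD mu) (x : g.Lam) (t : Option S.I → ℝ) :
    S.degD mu C (tf S.toDivSpace x t) =
      S.degD mu C (S.cl x) - ∑ i, (t (some i) - t none) * S.degD mu C (S.cl (S.V i)) := by
  change S.lin mu C (tf S.toDivSpace x t) =
    S.lin mu C (S.cl x) - ∑ i, (t (some i) - t none) * S.lin mu C (S.cl (S.V i))
  simp only [tf, DivSpace.tw, map_add, map_sub, map_sum, map_smul, smul_eq_mul, zero_mul, add_zero]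

/-- all vertical coefficients for which the class is movable -/
def KK (x : g.Lam) : Set (Option S.I → ℝ) := {t | tf S.toDivSpace x t ∈ S.Mov}

theorem continuous_tf (x : g.Lam) : Continuous fun t => tf S.toDivSpace x t := by
  unfold tf DivSpace.tw
  fun_prop

theorem isClosed_KK (x : g.Lam) : IsClosed (S.KK x) := S.closed.preimage (S.continuous_tf x)

theorem tf_add_const (x : g.Lam) (t : Option S.I → ℝ) (c : ℝ) :
    tf S.toDivSpace x (fun i => t i + c) = tf S.toDivSpace x t := by
  unfold tf
  congr 1
  funext i
  ring

theorem tf_comb (x : g.Lam) (t t' : Option S.I → ℝ) (a b : ℝ) (hab : a + b = 1) :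
    tf S.toDivSpace x (a • t + b • t') = a • tf S.toDivSpace x t + b • tf S.toDivSpace x t' := by
  unfold tf DivSpace.tw
  have h1 : ∑ i, ((a • t + b • t') (some i) - (a • t + b • t') none) • S.cl (S.V i) =
      a • ∑ i, (t (some i) - t none) • S.cl (S.V i) +
        b • ∑ i, (t' (some i) - t' none) • S.cl (S.V i) := by
    rw [Finset.smul_sum, Finset.smul_sum, ← Finset.sum_add_distrib]
    refine Finset.sum_congr rfl fun i _ => ?_
    rw [smul_smul, smul_smul, ← add_smul]
    congr 1
    simp only [Pi.add_apply, Pi.smul_apply, smul_eq_mul]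
    ring
  rw [h1]
  have h2 : S.cl x = a • S.cl x + b • S.cl x := by rw [← add_smul, hab, one_smul]
  simp only [zero_smul, add_zero, smul_sub]
  nth_rewrite 1 [h2]
  abel

theorem convex_KK (x : g.Lam) : Convex ℝ (S.KK x) := by
  intro t ht t' ht' a b ha hb hab
  change tf S.toDivSpace x (a • t + b • t') ∈ S.Mov
  rw [S.tf_comb x t t' a b hab]
  exact S.add_mem _ _ (S.smul_mem a _ ha ht) (S.smul_mem b _ hb ht')

/-- there are movable extensions -/
theorem nonempty_KK (x : g.Lam) (hx : NefG (g.rho x)) : (S.KK x).Nonempty := by
  obtain ⟨s, hs⟩ := S.exists_real x hx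
  refine ⟨fun i => match i with | some i => s i | none => 0, ?_⟩
  change tf S.toDivSpace x _ ∈ S.Mov
  have h1 : ∀ n : ℕ, S.tw x s (1 / ((n : ℝ) + 1)) ∈ S.Mov := fun n =>
    hs (1 / ((n : ℝ) + 1)) (by positivity)
  have h2 : Tendsto (fun n : ℕ => S.tw x s (1 / ((n : ℝ) + 1))) atTop (𝓝 (S.tw x s 0)) := by
    unfold DivSpace.tw
    refine Tendsto.add tendsto_const_nhds ?_
    exact (tendsto_one_div_add_atTop_nhds_zero_nat).smul_const _
  have h3 := S.closed.mem_of_tendsto h2 (Eventually.of_forall h1)
  have h4 : tf S.toDivSpace x (fun i => match i with | some i => s i | none => 0) =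
      S.tw x s 0 := by
    unfold tf
    simp only [sub_zero]
  rw [h4]
  exact h3

/-- movable extensions are nef on some model -/
theorem exists_nef (x : g.Lam) (hx : NefG (g.rho x)) (t : Option S.I → ℝ) (ht : t ∈ S.KK x) :
    ∃ mu, S.NefR mu (tf S.toDivSpace x t) := by
  have h1 : ∀ d : ℝ, 0 < d → S.tw x (fun i => t (some i) - t none) d ∈ S.Mov := by
    intro d hd
    have h2 := S.add_mem _ _ ht (S.smul_mem d S.H hd.le S.H_mem)
    unfold tf DivSpace.tw at h2
    unfold DivSpace.tw
    rw [zero_smul, add_zero] at h2
    exact h2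
  rcases S.mmp x _ hx h1 with ⟨mu, hmu⟩ | ⟨⟨R⟩⟩
  · exact ⟨mu, hmu⟩
  · exact R.false.elim

/-- the least element with `k`-th coefficient zero -/
theorem exists_least (x : g.Lam) (hx : NefG (g.rho x)) (k : Option S.I) :
    ∃ t ∈ S.KK x, t k = 0 ∧ ∀ t' ∈ S.KK x, t' k = 0 → t ≤ t' := by
  classical
  -- the set is compact
  obtain ⟨T, hT⟩ : ∃ T : Set (Option S.I → ℝ), T = {t | t ∈ S.KK x ∧ t k = 0} := ⟨_, rfl⟩
  have hclosed : IsClosed T := by
    rw [hT]
    exact (S.isClosed_KK x).inter (isClosed_eq (continuous_apply k) continuous_const)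
  obtain ⟨c, hc⟩ := (S.isBounded_K x 0).exists_norm_le
  have hbd : Bornology.IsBounded T := by
    refine isBounded_iff_forall_norm_le.2 ⟨2 * |c|, fun t ht => ?_⟩
    rw [hT] at ht
    have h1 : ‖fun i => t (some i) - t none‖ ≤ c := hc _ ht.1
    have h2 : ∀ i, |t (some i) - t none| ≤ |c| := fun i =>
      ((norm_le_pi_norm (fun i => t (some i) - t none) i).trans h1).trans (le_abs_self c)
    have h3 : |t none| ≤ |c| := by
      cases hk : k with
      | none =>
        have := ht.2
        rw [hk] at this
        rw [this, abs_zero]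
        exact abs_nonneg c
      | some i =>
        have h4 := h2 i
        have h5 := ht.2
        rw [hk] at h5
        rw [h5, zero_sub, abs_neg] at h4
        exact h4
    refine (pi_norm_le_iff_of_nonneg (by positivity)).2 fun j => ?_
    rw [Real.norm_eq_abs]
    cases j with
    | none => linarith [abs_nonneg c]
    | some i =>
      have h4 := h2 i
      have h5 : t (some i) = (t (some i) - t none) + t none := by ring
      rw [h5]
      exact (abs_add_le _ _).trans (by linarith)
  have hcomp : IsCompact T := Metric.isCompact_of_isClosed_isBounded hclosed hbd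
  have hne : T.Nonempty := by
    obtain ⟨t, ht⟩ := S.nonempty_KK x hx
    refine ⟨fun i => t i + (- t k), ?_⟩
    rw [hT]
    refine ⟨?_, by simp⟩
    change tf S.toDivSpace x _ ∈ S.Mov
    rw [S.tf_add_const]
    exact ht
  obtain ⟨t, ht, hmin⟩ := hcomp.exists_isMinOn hne
    (f := fun t : Option S.I → ℝ => ∑ i, t i) (by fun_prop)
  rw [hT] at ht
  refine ⟨t, ht.1, ht.2, fun t' ht' hk' => ?_⟩
  have h1 : (fun i => min (t i) (t' i)) ∈ T := by
    rw [hT]
    refine ⟨S.inf_mem x t t' ht.1 ht', ?_⟩
    change min (t k) (t' k) = 0
    rw [ht.2, hk', min_self]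
  have h2 : ∑ i, t i ≤ ∑ i, min (t i) (t' i) := hmin h1
  by_contra hle
  rw [Pi.le_def] at hle
  push Not at hle
  obtain ⟨i, hi⟩ := hle
  have h3 : ∑ i, min (t i) (t' i) < ∑ i, t i :=
    Finset.sum_lt_sum (fun j _ => min_le_left _ _)
      ⟨i, Finset.mem_univ i, by rw [min_eq_right hi.le]; exact hi⟩
  exact absurd h2 (not_le.2 h3)

/-- **Step 1.** Some nef extension is not trivial on all double surfaces. -/
theorem exists_pos_real (x : g.Lam) (hx : NefG (g.rho x)) (hbig : Big (g.rho x)) :
    ∃ mu t, S.NefR mu (tf S.toDivSpace x t) ∧ ∃ C, S.degD mu C (tf S.toDivSpace x t) ≠ 0 := by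
  classical
  by_contra hcon
  push Not at hcon
  -- the least elements can be lowered
  have h1 : ∀ k, ∃ t ∈ S.KK x, ∃ t' ∈ S.KK x, t' k < t k ∧ ∀ i, i ≠ k → t' i = t i := by
    intro k
    obtain ⟨t, ht, htk, hleast⟩ := S.exists_least x hx k
    refine ⟨t, ht, ?_⟩
    by_contra hno
    push Not at hno
    obtain ⟨mu, hmu⟩ := S.exists_nef x hx t ht
    obtain ⟨j, hj⟩ := S.not_null mu x t hbig hmu
    refine hj (S.cover mu x t j hmu ?_ (hcon mu t hmu))
    intro t' hlt heq hmem
    by_cases hjk : j = k
    · subst hjk
      obtain ⟨i, hi, hne⟩ := hno t' hmem hlt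
      exact hne (heq i hi)
    · have h2 := hleast t' hmem (by rw [heq k (Ne.symm hjk)]; exact htk) j
      linarith
  -- the set has interior points
  have h2 : affineSpan ℝ (S.KK x) = ⊤ := by
    obtain ⟨t0, ht0⟩ := S.nonempty_KK x hx
    have hdir : (affineSpan ℝ (S.KK x)).direction = ⊤ := by
      rw [eq_top_iff]
      intro v _
      have hv : v = ∑ k, v k • Pi.single k (1 : ℝ) := by
        funext j
        simp [Finset.sum_apply, Pi.single_apply]
      rw [hv]
      refine Submodule.sum_mem _ fun k _ => Submodule.smul_mem _ _ ?_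
      obtain ⟨t, ht, t', ht', hlt, heq⟩ := h1 k
      have h3 := AffineSubspace.vsub_mem_direction (subset_affineSpan ℝ _ ht)
        (subset_affineSpan ℝ _ ht')
      have h4 : t -ᵥ t' = (t k - t' k) • Pi.single k (1 : ℝ) := by
        funext j
        rw [vsub_eq_sub, Pi.sub_apply, Pi.smul_apply, smul_eq_mul]
        by_cases hjk : j = k
        · subst hjk
          rw [Pi.single_eq_same, mul_one]
        · rw [heq j hjk, Pi.single_eq_of_ne hjk]
          ring
      rw [h4] at h3
      have h5 := Submodule.smul_mem (affineSpan ℝ (S.KK x)).direction (t k - t' k)⁻¹ h3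
      rw [smul_smul, inv_mul_cancel₀ (sub_pos.2 hlt).ne', one_smul] at h5
      exact h5
    exact (AffineSubspace.direction_eq_top_iff_of_nonempty
      ⟨t0, subset_affineSpan ℝ _ ht0⟩).1 hdir
  have h3 : (interior (S.KK x)).Nonempty :=
    ((S.convex_KK x).interior_nonempty_iff_affineSpan_eq_top).2 h2
  -- one model is good for an open set
  obtain ⟨mu, U, hUo, hUne, hU⟩ : ∃ (mu : g.Mo) (U : Set (Option S.I → ℝ)), IsOpen U ∧
      U.Nonempty ∧ ∀ t ∈ U, S.NefR mu (tf S.toDivSpace x t) := by
    have := S.cnt
    have : BaireSpace (interior (S.KK x)) := isOpen_interior.baireSpace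
    have : Nonempty (interior (S.KK x)) := h3.to_subtype
    obtain ⟨mu, hmu⟩ := nonempty_interior_of_iUnion_of_closed
      (f := fun mu : g.Mo => {t : interior (S.KK x) | S.NefR mu (tf S.toDivSpace x t)})
      (fun mu => (S.nef_closed mu).preimage
        ((S.continuous_tf x).comp continuous_subtype_val)) (by
        rw [Set.eq_univ_iff_forall]
        rintro ⟨t, ht⟩
        obtain ⟨mu, hmu⟩ := S.exists_nef x hx t (interior_subset ht)
        exact Set.mem_iUnion.2 ⟨mu, hmu⟩)
    refine ⟨mu, Subtype.val '' interior {t : interior (S.KK x) |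
      S.NefR mu (tf S.toDivSpace x t)}, ?_, hmu.image _, ?_⟩
    · exact isOpen_interior.isOpenMap_subtype_val _ isOpen_interior
    · rintro _ ⟨t, ht, rfl⟩
      have h4 : t ∈ {t : interior (S.KK x) | S.NefR mu (tf S.toDivSpace x t)} :=
        interior_subset ht
      exact h4
  -- all components are trivial on the double surfaces
  have h4 : ∀ C i, S.degD mu C (S.cl (S.V i)) = 0 := by
    intro C i
    obtain ⟨t, ht⟩ := hUne
    have h5 : Tendsto (fun ε : ℝ => Function.update t (some i) (t (some i) + ε)) (𝓝 0)
        (𝓝 t) := by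
      have h6 : Continuous fun ε : ℝ => Function.update t (some i) (t (some i) + ε) := by
        fun_prop
      have h7 := h6.tendsto 0
      simpa using h7
    have h6 := h5.eventually (hUo.mem_nhds ht)
    obtain ⟨ε, hε, hmem⟩ : ∃ ε : ℝ, 0 < ε ∧
        Function.update t (some i) (t (some i) + ε) ∈ U := by
      obtain ⟨δ, hδ, hball⟩ := Metric.eventually_nhds_iff.1 h6
      refine ⟨δ / 2, by linarith, hball ?_⟩
      rw [Real.dist_0_eq_abs, abs_of_pos (by linarith)]
      linarith
    have h7 := hcon mu t (hU t ht) C
    have h8 := hcon mu _ (hU _ hmem) C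
    rw [deg_tf] at h7 h8
    have h9 : ∑ j, (Function.update t (some i) (t (some i) + ε) (some j) -
        Function.update t (some i) (t (some i) + ε) none) * S.degD mu C (S.cl (S.V j)) =
        ∑ j, (t (some j) - t none) * S.degD mu C (S.cl (S.V j)) +
          ε * S.degD mu C (S.cl (S.V i)) := by
      have h10 : ∀ j, (Function.update t (some i) (t (some i) + ε) (some j) -
          Function.update t (some i) (t (some i) + ε) none) * S.degD mu C (S.cl (S.V j)) =
          (t (some j) - t none) * S.degD mu C (S.cl (S.V j)) +
            if j = i then ε * S.degD mu C (S.cl (S.V i)) else 0 := by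
        intro j
        rw [Function.update_of_ne (by simp : (none : Option S.I) ≠ some i)]
        by_cases hji : j = i
        · subst hji
          rw [Function.update_self, if_pos rfl]
          ring
        · rw [Function.update_of_ne (by simpa using hji), if_neg hji, add_zero]
      rw [Finset.sum_congr rfl fun j _ => h10 j, Finset.sum_add_distrib]
      simp
    rw [h9] at h8
    have h10 : ε * S.degD mu C (S.cl (S.V i)) = 0 := by linarith
    exact (mul_eq_zero.1 h10).resolve_left hε.ne'
  have h5 : ∀ C l, S.degD mu C (S.cl (VV S.toDivSpace l)) = 0 := by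
    intro C l
    cases l with
    | some i => exact h4 C i
    | none =>
      change S.lin mu C (S.cl (-∑ i, S.V i)) = 0
      rw [map_neg, map_neg, map_sum, map_sum, neg_eq_zero]
      exact Finset.sum_eq_zero fun i _ => h4 C i
  -- the supports on the boundary of `V_j`
  obtain ⟨j, l, hlj, ⟨e, he⟩, e', he'⟩ := S.link mu
  have h6 : ∀ e₁ e₂, Relation.ReflTransGen (S.Adj mu j) e₁ e₂ → S.a mu j l e₁ = 0 →
      S.a mu j l e₂ = 0 := by
    intro e₁ e₂ h h0
    induction h with
    | refl => exact h0
    | tail _ hadj ih =>
      rename_i b c _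
      by_contra hne
      have hpos : 0 < S.a mu j l c := lt_of_le_of_ne (S.a_nonneg mu j l c hlj) (Ne.symm hne)
      obtain ⟨C, hC⟩ := S.pos mu j l b c hlj (Or.inl hadj) ih hpos
      exact hC (h5 C l)
  have h7 := h6 e e' (S.conn mu j e e') he
  linarith

/-- rational coefficients for the same model -/
theorem exists_rational_pos (x : g.Lam) (mu : g.Mo) (s : S.I → ℝ)
    (hs : S.NefR mu (S.tw x s 0)) (C : S.CurD mu) (hC : S.degD mu C (S.tw x s 0) ≠ 0) :
    ∃ q : S.I → ℚ, S.NefR mu (S.tw x (fun i => (q i : ℝ)) 0) ∧
      0 < S.degD mu C (S.tw x (fun i => (q i : ℝ)) 0) := by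
  classical
  choose z hz using S.int mu
  choose w hw using S.intD mu C
  have hm : (0 : ℝ) < S.ind mu := by exact_mod_cast S.ind_pos mu
  have hdeg : ∀ C y, S.deg mu C (S.cl y) = (((z C y : ℚ) / S.ind mu : ℚ) : ℝ) := by
    intro C y
    push_cast
    rw [eq_div_iff hm.ne', mul_comm]
    exact hz C y
  have hdegD : ∀ y, S.degD mu C (S.cl y) = (((w y : ℚ) / S.ind mu : ℚ) : ℝ) := by
    intro y
    push_cast
    rw [eq_div_iff hm.ne', mul_comm]
    exact hw y
  have htw : ∀ s : S.I → ℝ, S.degD mu C (S.tw x s 0) =
      S.degD mu C (S.cl x) - ∑ i, s i * S.degD mu C (S.cl (S.V i)) := by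
    intro s
    change S.lin mu C (S.tw x s 0) = S.lin mu C (S.cl x) - ∑ i, s i * S.lin mu C (S.cl (S.V i))
    simp only [DivSpace.tw, map_add, map_sub, map_sum, map_smul, smul_eq_mul, zero_mul, add_zero]
  have hpos : 0 < S.degD mu C (S.tw x s 0) :=
    lt_of_le_of_ne (S.degD_nef mu C _ hs) (Ne.symm hC)
  obtain ⟨δ, hδ0, hδ⟩ := exists_rat_btwn hpos
  have hδ0' : (0 : ℚ) < δ := by exact_mod_cast hδ0
  -- the inequalities
  obtain ⟨v, hv⟩ : ∃ v : Option (S.Ray mu) → S.I → ℚ, v = fun F i => match F with
      | some C => (z C (S.V i) : ℚ) / S.ind mu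
      | none => (w (S.V i) : ℚ) / S.ind mu := ⟨_, rfl⟩
  obtain ⟨l, hl⟩ : ∃ l : Option (S.Ray mu) → ℚ, l = fun F => match F with
      | some C => (z C x : ℚ) / S.ind mu
      | none => (w x : ℚ) / S.ind mu - δ := ⟨_, rfl⟩
  have hvs : ∀ C i, v (some C) i = (z C (S.V i) : ℚ) / S.ind mu := fun C i => by rw [hv]
  have hvn : ∀ i, v none i = (w (S.V i) : ℚ) / S.ind mu := fun i => by rw [hv]
  have hls : ∀ C, l (some C) = (z C x : ℚ) / S.ind mu := fun C => by rw [hl]
  have hln : l none = (w x : ℚ) / S.ind mu - δ := by rw [hl]
  have h1 : ∀ F, ∑ i, (v F i : ℝ) * s i ≤ (l F : ℝ) := by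
    intro F
    cases F with
    | some C =>
      have h3 := S.deg_nef mu C _ hs
      rw [NefGerm.deg_tw] at h3
      have h6 : ∑ i, (v (some C) i : ℝ) * s i = ∑ i, s i * S.deg mu C (S.cl (S.V i)) := by
        refine Finset.sum_congr rfl fun i _ => ?_
        rw [hdeg, hvs, mul_comm]
      rw [h6, hls, ← hdeg]
      linarith
    | none =>
      rw [htw] at hδ
      have h6 : ∑ i, (v none i : ℝ) * s i = ∑ i, s i * S.degD mu C (S.cl (S.V i)) := by
        refine Finset.sum_congr rfl fun i _ => ?_
        rw [hdegD, hvn, mul_comm]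
      rw [h6, hln, Rat.cast_sub, ← hdegD]
      linarith
  have hfin : (Set.range v).Finite := by
    have h2 : Set.range v ⊆ {f | ∀ i, f i ∈ (fun y : ℤ => (y : ℚ) / S.ind mu) ''
          (Set.Icc (-(S.ind mu * 6 : ℤ)) (S.ind mu * 6 : ℤ))} ∪ {v none} := by
      rintro f ⟨F, rfl⟩
      cases F with
      | none => exact Or.inr rfl
      | some C =>
        refine Or.inl fun i => ⟨z C (S.V i), ?_, (hvs C i).symm⟩
        have h3 := abs_le.1 (S.bound mu C i)
        have h4 := hz C (S.V i)
        have h5 : (z C (S.V i) : ℝ) ≤ S.ind mu * 6 := by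
          rw [← h4]
          exact mul_le_mul_of_nonneg_left h3.2 hm.le
        have h6 : -((S.ind mu : ℝ) * 6) ≤ z C (S.V i) := by
          rw [← h4, ← mul_neg]
          exact mul_le_mul_of_nonneg_left h3.1 hm.le
        constructor
        · have : ((-(S.ind mu * 6 : ℤ) : ℤ) : ℝ) ≤ (z C (S.V i) : ℝ) := by
            push_cast
            exact h6
          exact_mod_cast this
        · have : (z C (S.V i) : ℝ) ≤ ((S.ind mu * 6 : ℤ) : ℝ) := by
            push_cast
            exact h5
          exact_mod_cast this
    exact ((Set.Finite.pi' fun _ => (Set.finite_Icc _ _).image _).union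
      (Set.finite_singleton _)).subset h2
  have hmq : (S.ind mu : ℚ) ≠ 0 := by exact_mod_cast (S.ind_pos mu).ne'
  obtain ⟨q, hq⟩ := Pool.Agent.H85.MS.exists_rat v l hfin (S.ind mu * δ.den)
    (Nat.mul_pos (S.ind_pos mu) δ.den_pos) (fun F => by
      cases F with
      | some C =>
        refine ⟨z C x * δ.den, ?_⟩
        rw [hls]
        push_cast
        field_simp
      | none =>
        refine ⟨w x * δ.den - S.ind mu * δ.num, ?_⟩
        rw [hln]
        have h2 : (δ.den : ℚ) * δ = δ.num := Rat.den_mul_eq_num δ
        push_cast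
        rw [← h2]
        field_simp) s h1
  refine ⟨q, S.cone mu x s _ hs fun C' => ?_, ?_⟩
  · have h7 : ∑ i, (q i : ℝ) * S.deg mu C' (S.cl (S.V i)) ≤ S.deg mu C' (S.cl x) := by
      have h8 : ((∑ i, v (some C') i * q i : ℚ) : ℝ) ≤ ((l (some C') : ℚ) : ℝ) := by
        exact_mod_cast hq (some C')
      rw [hls, ← hdeg] at h8
      refine le_trans (le_of_eq ?_) h8
      rw [Rat.cast_sum]
      refine Finset.sum_congr rfl fun i _ => ?_
      rw [hdeg, Rat.cast_mul, hvs, mul_comm]
    rw [NefGerm.deg_tw]
    linarith
  · have h8 : ((∑ i, v none i * q i : ℚ) : ℝ) ≤ ((l none : ℚ) : ℝ) := by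
      exact_mod_cast hq none
    rw [hln, Rat.cast_sub, ← hdegD] at h8
    have h9 : ((∑ i, v none i * q i : ℚ) : ℝ) = ∑ i, (q i : ℝ) * S.degD mu C (S.cl (S.V i)) := by
      rw [Rat.cast_sum]
      refine Finset.sum_congr rfl fun i _ => ?_
      rw [hdegD, Rat.cast_mul, hvn, mul_comm]
    rw [h9] at h8
    rw [htw]
    linarith

include S in
/-- A positive multiple of a nef class `L` which is not numerically trivial extends to a Cartier
class of some model which is nef over the base and has positive degree on a curve in a double surface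
of the dlt modification. -/
theorem nef_pos (L : P) (hL : NefG L) (hbig : Big L) (y : g.Lam) (hy : g.rho y = L)
    (hq : ∀ mu x, ∃ k : ℕ, 0 < k ∧ ∀ j : ℕ, g.Car mu (j • k • x)) :
    ∃ (mu : g.Mo) (k : ℕ) (x : g.Lam), 0 < k ∧ g.rho x = k • L ∧ g.Nef mu x ∧
      (∀ j : ℕ, g.Car mu (j • x)) ∧ ∃ C, 0 < S.degD mu C (S.cl x) := by
  obtain ⟨mu, t, hmu, C, hC⟩ := S.exists_pos_real y (by rw [hy]; exact hL) (by rw [hy]; exact hbig)
  obtain ⟨q, hqn, hqC⟩ := S.exists_rational_pos y mu _ hmu C hC
  obtain ⟨k, hk, hkz⟩ := NefGerm.exists_den q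
  choose z hz using hkz
  -- an integral class
  obtain ⟨x, hxdef⟩ : ∃ x : g.Lam, x = k • y - ∑ i, z i • S.V i := ⟨_, rfl⟩
  have hx : g.rho x = k • L := by
    rw [hxdef]
    simp only [map_sub, map_nsmul, map_sum, map_zsmul, S.rho_V, smul_zero,
      Finset.sum_const_zero, sub_zero, hy]
  have hcl : S.cl x = (k : ℝ) • S.tw y (fun i => (q i : ℝ)) 0 := by
    rw [hxdef]
    simp only [DivSpace.tw, map_sub, map_nsmul, map_sum, map_zsmul, smul_sub, Finset.smul_sum,
      zero_smul, add_zero]
    rw [Nat.cast_smul_eq_nsmul ℝ k]
    congr 1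
    refine Finset.sum_congr rfl fun i _ => ?_
    rw [smul_smul, ← Int.cast_smul_eq_zsmul ℝ (z i)]
    congr 1
    exact_mod_cast (hz i).symm
  obtain ⟨e, he, hcar⟩ := hq mu x
  have hcl2 : S.cl (e • x) = ((e : ℝ) * k) • S.tw y (fun i => (q i : ℝ)) 0 := by
    rw [map_nsmul, hcl, ← Nat.cast_smul_eq_nsmul ℝ e, smul_smul]
  refine ⟨mu, e * k, e • x, Nat.mul_pos he hk, ?_, ?_, hcar, C, ?_⟩
  · rw [map_nsmul, hx, smul_smul]
  · refine S.nef_cl mu _ ?_
    rw [hcl2]
    exact S.nef_smul mu _ _ (by positivity) hqn
  · rw [hcl2, S.degD_smul]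
    have h1 : (0 : ℝ) < e := by exact_mod_cast he
    have h2 : (0 : ℝ) < k := by exact_mod_cast hk
    positivity

end VertGerm

end Pool.Agent.H31.MN
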